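import Pool.Agent.Run7.h253.LJ.Skew
import Pool.Agent.H576R3.CF.Form

/-! Project LJ, piece HAR. -/

set_option autoImplicit false

namespace Pool.Agent.Run7.h253.LJ

open Topology Filter Pool.Agent.Run7.h314.LJ Pool.Agent.N696.LI

/-- a positive definite form has an orthonormal basis -/
theorem exists_orthonormal {V : Type} [AddCommGroup V] [Module ℝ V] [FiniteDimensional ℝ V]
    (B : V →ₗ[ℝ] V →ₗ[ℝ] ℝ) (hs : ∀ v w, B v w = B w v) (hp : ∀ v, v ≠ 0 → 0 < B v v) :
    ∃ b : Module.Basis (Fin (Module.finrank ℝ V)) ℝ V,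
      ∀ i j, B (b i) (b j) = if i = j then 1 else 0 := by
  let core : InnerProductSpace.Core ℝ V :=
    { inner := fun x y => B x y
      conj_inner_symm := fun x y => by
        change (starRingEnd ℝ) (B y x) = B x y
        rw [conj_trivial, hs]
      re_inner_nonneg := fun x => by
        change 0 ≤ B x x
        rcases eq_or_ne x 0 with h | h
        · rw [h]; simp
        · exact (hp x h).le
      add_left := fun x y z => by
        change B (x + y) z = B x z + B y z
        rw [map_add, LinearMap.add_apply]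
      smul_left := fun x y r => by
        change B (r • x) y = (starRingEnd ℝ) r * B x y
        rw [map_smul, LinearMap.smul_apply, conj_trivial, smul_eq_mul]
      definite := fun x hx => by
        by_contra h
        exact (hp x h).ne' hx }
  letI : NormedAddCommGroup V := core.toNormedAddCommGroup
  letI : InnerProductSpace ℝ V := InnerProductSpace.ofCore core.toCore
  let o := stdOrthonormalBasis ℝ V
  refine ⟨o.toBasis, fun i j => ?_⟩
  have h := orthonormal_iff_ite.1 o.orthonormal i j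
  rw [OrthonormalBasis.coe_toBasis]
  exact h

section

variable {m n : ℕ} {X N : Fin n → Mat m} {g : ℕ → (Mat m)ˣ} {φ : Mat m →ₗ[ℝ] Mat m}

theorem phi_one (hL : Lim X N g φ) : φ 1 = 1 := by
  have h1 := hL.lim 1 (one_mem _)
  have h2 : Tendsto (fun t => (g t : Mat m) * 1 * (((g t)⁻¹ : (Mat m)ˣ) : Mat m)) atTop (𝓝 1) := by
    refine tendsto_const_nhds.congr fun t => ?_
    rw [mul_one, Units.mul_inv]
  exact tendsto_nhds_unique h1 h2

theorem phi_mul (hL : Lim X N g φ) (M M' : Mat m) (hM : M ∈ AX X) (hM' : M' ∈ AX X) :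
    φ (M * M') = φ M * φ M' := by
  have h1 := hL.lim (M * M') (mul_mem hM hM')
  have h2 := (hL.lim M hM).mul (hL.lim M' hM')
  refine tendsto_nhds_unique h1 (h2.congr fun t => ?_)
  calc (g t : Mat m) * M * (((g t)⁻¹ : (Mat m)ˣ) : Mat m) *
        ((g t : Mat m) * M' * (((g t)⁻¹ : (Mat m)ˣ) : Mat m))
      = (g t : Mat m) * M * ((((g t)⁻¹ : (Mat m)ˣ) : Mat m) * (g t : Mat m)) * M' *
        (((g t)⁻¹ : (Mat m)ˣ) : Mat m) := by simp only [mul_assoc]
    _ = _ := by rw [Units.inv_mul, mul_one]; simp only [mul_assoc]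

theorem exp_mem_AX (M : Mat m) (hM : M ∈ AX X) : NormedSpace.exp M ∈ AX X := by
  letI : NormedRing (Mat m) := Matrix.linftyOpNormedRing
  letI : NormedAlgebra ℝ (Mat m) := Matrix.linftyOpNormedAlgebra
  have hcl : IsClosed ((AX X).toSubmodule : Set (Mat m)) :=
    (AX X).toSubmodule.closed_of_finiteDimensional
  have hs := NormedSpace.exp_series_hasSum_exp' (𝕂 := ℝ) M
  refine hcl.mem_of_tendsto hs (Eventually.of_forall fun s => ?_)
  refine Submodule.sum_mem _ fun k _ => Submodule.smul_mem _ _ ?_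
  exact pow_mem hM k

theorem lc_mem_AX (c : Fin n → ℝ) : lc X c ∈ AX X := by
  unfold lc
  exact sum_mem fun i _ => Subalgebra.smul_mem _ (Algebra.subset_adjoin (Set.mem_range_self i)) _

theorem eg_mem_AX (h : (Mat m)ˣ) (hh : h ∈ eg X) : (h : Mat m) ∈ AX X ∧
    ((h⁻¹ : (Mat m)ˣ) : Mat m) ∈ AX X := by
  refine Subgroup.closure_induction (p := fun (h : (Mat m)ˣ) _ => (h : Mat m) ∈ AX X ∧
    ((h⁻¹ : (Mat m)ˣ) : Mat m) ∈ AX X) ?_ ?_ ?_ ?_ hh
  · rintro h ⟨c, hc⟩
    refine ⟨by rw [hc]; exact exp_mem_AX _ (lc_mem_AX c), ?_⟩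
    have h1 : ((h⁻¹ : (Mat m)ˣ) : Mat m) = NormedSpace.exp (-(lc X c)) := by
      rw [Matrix.exp_neg, ← hc, Matrix.coe_units_inv]
    rw [h1]
    exact exp_mem_AX _ (neg_mem (lc_mem_AX c))
  · rw [inv_one, Units.val_one]; exact ⟨one_mem _, one_mem _⟩
  · intro a b _ _ ha hb
    rw [mul_inv_rev, Units.val_mul, Units.val_mul]
    exact ⟨mul_mem ha.1 hb.1, mul_mem hb.2 ha.2⟩
  · intro a _ ha
    rw [inv_inv]; exact ⟨ha.2, ha.1⟩

theorem phi_exp (hL : Lim X N g φ) (M : Mat m) (hM : M ∈ AX X) :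
    φ (NormedSpace.exp M) = NormedSpace.exp (φ M) := by
  letI : NormedRing (Mat m) := Matrix.linftyOpNormedRing
  letI : NormedAlgebra ℝ (Mat m) := Matrix.linftyOpNormedAlgebra
  have h1 := hL.lim _ (exp_mem_AX M hM)
  have hc : ContinuousAt (NormedSpace.exp : Mat m → Mat m) (φ M) :=
    (NormedSpace.exp_analytic (𝕂 := ℝ) (φ M)).continuousAt
  have h2 := hc.tendsto.comp (hL.lim M hM)
  refine tendsto_nhds_unique h1 (h2.congr fun t => ?_)
  exact Matrix.exp_units_conj (g t) M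

theorem phi_lc (hL : Lim X N g φ) (c : Fin n → ℝ) : φ (lc X c) = lc N c := by
  unfold lc
  rw [map_sum]
  refine Finset.sum_congr rfl fun i _ => ?_
  rw [map_smul, hL.gen]

/-- the twisted action on matrices -/
def Tw (φ : Mat m →ₗ[ℝ] Mat m) (h : (Mat m)ˣ) : Mat m →ₗ[ℝ] Mat m where
  toFun w := (h : Mat m) * w * φ ((h⁻¹ : (Mat m)ˣ) : Mat m)
  map_add' a b := by rw [mul_add, add_mul]
  map_smul' c a := by rw [mul_smul_comm, smul_mul_assoc, RingHom.id_apply]

theorem Tw_apply (φ : Mat m →ₗ[ℝ] Mat m) (h : (Mat m)ˣ) (w : Mat m) :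
    Tw φ h w = (h : Mat m) * w * φ ((h⁻¹ : (Mat m)ˣ) : Mat m) := rfl

theorem Tw_mul (hL : Lim X N g φ) (h h' : (Mat m)ˣ) (hh : h ∈ eg X) (hh' : h' ∈ eg X)
    (w : Mat m) : Tw φ (h * h') w = Tw φ h (Tw φ h' w) := by
  rw [Tw_apply, Tw_apply, Tw_apply, mul_inv_rev, Units.val_mul, Units.val_mul,
    phi_mul hL _ _ (eg_mem_AX h' hh').2 (eg_mem_AX h hh).2]
  simp only [mul_assoc]

theorem Tw_one (hL : Lim X N g φ) (w : Mat m) : Tw φ 1 w = w := by
  rw [Tw_apply, inv_one, Units.val_one, phi_one hL, one_mul, mul_one]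

/-- the curve `exp (s X) w exp (-s N)` and its derivative -/
theorem hasDerivAt_conj (A B w : Mat m) (L : Mat m →ₗ[ℝ] ℝ) :
    HasDerivAt (fun s : ℝ => L (NormedSpace.exp (s • A) * w * NormedSpace.exp (s • B)))
      (L (A * w + w * B)) 0 := by
  letI : NormedRing (Mat m) := Matrix.linftyOpNormedRing
  letI : NormedAlgebra ℝ (Mat m) := Matrix.linftyOpNormedAlgebra
  have h1 := hasDerivAt_exp_smul_const' (𝕂 := ℝ) A (0 : ℝ)
  have h2 := hasDerivAt_exp_smul_const' (𝕂 := ℝ) B (0 : ℝ)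
  have h3 := (h1.mul_const w).mul h2
  have h4 := (L.toContinuousLinearMap.hasFDerivAt
    (x := NormedSpace.exp ((0 : ℝ) • A) * w * NormedSpace.exp ((0 : ℝ) • B))).comp_hasDerivAt
      (0 : ℝ) h3
  have h5 : HasDerivAt (fun s : ℝ => L (NormedSpace.exp (s • A) * w * NormedSpace.exp (s • B)))
    (L (A * NormedSpace.exp ((0 : ℝ) • A) * w * NormedSpace.exp ((0 : ℝ) • B) +
      NormedSpace.exp ((0 : ℝ) • A) * w * (B * NormedSpace.exp ((0 : ℝ) • B)))) 0 := h4
  rw [zero_smul, zero_smul, NormedSpace.exp_zero, mul_one, mul_one, mul_one, one_mul] at h5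
  exact h5

end

/-- a group of uniformly bounded linear maps has determinants `± 1` -/
theorem abs_det_one {V : Type} [NormedAddCommGroup V] [InnerProductSpace ℝ V]
    [FiniteDimensional ℝ V] {G : Type} [Group G] (A : G → V →ₗ[ℝ] V) (h1 : A 1 = LinearMap.id)
    (hm : ∀ a b, A (a * b) = A a ∘ₗ A b) (C : ℝ) (hC : ∀ a v, ‖A a v‖ ≤ C * ‖v‖) (a : G) :
    |LinearMap.det (A a)| = 1 := by
  set C' : ℝ := max C 1 with hC'
  have hC'1 : 1 ≤ C' := le_max_right _ _
  have hC'0 : 0 < C' := by linarith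
  have hlow : ∀ a, (1 / C') ^ (Module.finrank ℝ V) ≤ |LinearMap.det (A a)| := by
    intro a
    refine Pool.Agent.H576R3.CF.det_lower (A a) (by positivity) fun v => ?_
    have h2 : A a⁻¹ (A a v) = v := by
      rw [← LinearMap.comp_apply, ← hm, inv_mul_cancel, h1]; rfl
    have h3 : ‖v‖ ≤ C' * ‖A a v‖ := by
      calc ‖v‖ = ‖A a⁻¹ (A a v)‖ := by rw [h2]
        _ ≤ C * ‖A a v‖ := hC _ _
        _ ≤ C' * ‖A a v‖ := mul_le_mul_of_nonneg_right (le_max_left _ _) (norm_nonneg _)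
    rw [one_div, inv_mul_le_iff₀ hC'0]
    exact h3
  have hpow : ∀ (a : G) (k : ℕ), |LinearMap.det (A (a ^ k))| = |LinearMap.det (A a)| ^ k := by
    intro a k
    induction k with
    | zero => rw [pow_zero, h1, LinearMap.det_id, abs_one, pow_zero]
    | succ k ih => rw [pow_succ, hm, LinearMap.det_comp, abs_mul, ih, pow_succ]
  have hge : ∀ a, 1 ≤ |LinearMap.det (A a)| := by
    intro a
    by_contra hc
    push Not at hc
    have h4 := tendsto_pow_atTop_nhds_zero_of_lt_one (abs_nonneg _) hc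
    have h5 : (1 / C') ^ (Module.finrank ℝ V) ≤ 0 :=
      ge_of_tendsto' h4 fun k => by rw [← hpow a k]; exact hlow _
    have h6 : 0 < (1 / C') ^ (Module.finrank ℝ V) := by positivity
    linarith
  have h7 : |LinearMap.det (A a)| * |LinearMap.det (A a⁻¹)| = 1 := by
    rw [← abs_mul, ← LinearMap.det_comp, ← hm, mul_inv_cancel, h1, LinearMap.det_id, abs_one]
  have h8 := hge a
  have h9 := hge a⁻¹
  nlinarith

/-- PIECE HAR. -/
theorem har : S_har := by
  intro m n X N g φ Γ hG hL ρ hρ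
  classical
  -- the group as a type
  have hTmul : ∀ a b : eg X, ∀ w, Tw φ ((a * b : eg X) : (Mat m)ˣ) w =
      Tw φ (a : (Mat m)ˣ) (Tw φ (b : (Mat m)ˣ) w) := fun a b w => by
    rw [Subgroup.coe_mul]; exact Tw_mul hL _ _ a.2 b.2 w
  -- bounded orbit
  obtain ⟨Kc, hKc, hKcX, hcov⟩ := hG.cocompact
  have hφc : Continuous φ := φ.continuous_of_finiteDimensional
  set Q : Set (Mat m) := (fun k : (Mat m)ˣ => ((k⁻¹ : (Mat m)ˣ) : Mat m) * ρ * φ (k : Mat m)) '' Kc
    with hQ
  have hQc : IsCompact Q := by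
    refine hKc.image ?_
    have c1 : Continuous fun k : (Mat m)ˣ => ((k⁻¹ : (Mat m)ˣ) : Mat m) :=
      Units.continuous_val.comp continuous_inv
    exact (c1.mul continuous_const).mul (hφc.comp Units.continuous_val)
  have hTQ : ∀ h ∈ eg X, Tw φ h ρ ∈ Q := by
    intro h hh
    obtain ⟨γ, hγ, hk⟩ := hcov h⁻¹ ((eg X).inv_mem hh)
    refine ⟨γ⁻¹ * h⁻¹, hk, ?_⟩
    have hkX : γ⁻¹ * h⁻¹ ∈ eg X := hKcX hk
    have hγX : γ ∈ eg X := hG.le hγ
    rw [Tw_apply]
    have e1 : h⁻¹ = γ * (γ⁻¹ * h⁻¹) := by rw [mul_inv_cancel_left]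
    have e2 : φ ((h⁻¹ : (Mat m)ˣ) : Mat m) = φ (γ : Mat m) * φ (((γ⁻¹ * h⁻¹ : (Mat m)ˣ)) : Mat m) := by
      conv_lhs => rw [e1]
      rw [Units.val_mul, phi_mul hL _ _ (eg_mem_AX γ hγX).1 (eg_mem_AX _ hkX).1]
    have e3 : ((γ⁻¹ * h⁻¹ : (Mat m)ˣ)⁻¹ : (Mat m)ˣ) = h * γ := by
      rw [mul_inv_rev, inv_inv, inv_inv]
    change (((γ⁻¹ * h⁻¹ : (Mat m)ˣ)⁻¹ : (Mat m)ˣ) : Mat m) * ρ *
      φ (((γ⁻¹ * h⁻¹ : (Mat m)ˣ)) : Mat m) = _
    rw [e2, e3, Units.val_mul, mul_assoc (h : Mat m), ← hρ γ hγ]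
    simp only [mul_assoc]
  -- the space
  set Orb : Set (Mat m) := {w | ∃ h ∈ eg X, w = Tw φ h ρ} with hOrb
  set W : Submodule ℝ (Mat m) := Submodule.span ℝ Orb with hW
  have hstab : ∀ h ∈ eg X, ∀ u ∈ W, Tw φ h u ∈ W := by
    intro h hh u hu
    refine Submodule.span_induction (p := fun u _ => Tw φ h u ∈ W) ?_ ?_ ?_ ?_ hu
    · rintro _ ⟨g', hg', rfl⟩
      exact Submodule.subset_span ⟨h * g', (eg X).mul_mem hh hg', (Tw_mul hL h g' hh hg' ρ).symm⟩
    · rw [map_zero]; exact W.zero_mem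
    · intro x y _ _ hx hy
      rw [map_add]; exact W.add_mem hx hy
    · intro c x _ hx
      rw [map_smul]; exact W.smul_mem c hx
  obtain ⟨b, hb, hspan, hli⟩ := exists_linearIndependent ℝ Orb
  haveI : Fintype b := hli.setFinite.fintype
  let V := EuclideanSpace ℝ b
  let E : V →ₗ[ℝ] Mat m :=
    { toFun := fun y => ∑ j, y j • (j : Mat m)
      map_add' := fun y y' => by
        rw [← Finset.sum_add_distrib]
        exact Finset.sum_congr rfl fun j _ => by rw [← add_smul]; rfl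
      map_smul' := fun c y => by
        rw [RingHom.id_apply, Finset.smul_sum]
        exact Finset.sum_congr rfl fun j _ => by rw [smul_smul]; rfl }
  have hE : ∀ y : V, E y = ∑ j, y j • (j : Mat m) := fun y => rfl
  have hEinj : LinearMap.ker E = ⊥ := by
    rw [LinearMap.ker_eq_bot']
    intro c hc
    ext j
    exact (Fintype.linearIndependent_iff.1 hli) (fun j => c j) hc j
  have hErange : LinearMap.range E = W := by
    apply le_antisymm
    · rintro _ ⟨c, rfl⟩
      rw [hE]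
      exact Submodule.sum_mem _ fun j _ => W.smul_mem _ (Submodule.subset_span (hb j.2))
    · rw [hW, ← hspan, Submodule.span_le]
      intro v hv
      refine ⟨EuclideanSpace.single ⟨v, hv⟩ 1, ?_⟩
      rw [hE, Finset.sum_eq_single (⟨v, hv⟩ : b)]
      · simp
      · intro j _ hj
        simp [hj]
      · intro h; exact absurd (Finset.mem_univ _) h
  obtain ⟨Λ, hΛ⟩ := LinearMap.exists_leftInverse_of_injective E hEinj
  have hΛE : ∀ y, Λ (E y) = y := fun y => LinearMap.congr_fun hΛ y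
  have hEΛ : ∀ w ∈ W, E (Λ w) = w := by
    intro w hw
    rw [← hErange] at hw
    obtain ⟨y, rfl⟩ := hw
    rw [hΛE]
  have hΛc : Continuous Λ := Λ.continuous_of_finiteDimensional
  -- the operators
  let A : eg X → V →ₗ[ℝ] V := fun h => Λ ∘ₗ Tw φ (h : (Mat m)ˣ) ∘ₗ E
  have hEA : ∀ (h : eg X) (y : V), E (A h y) = Tw φ (h : (Mat m)ˣ) (E y) := by
    intro h y
    refine hEΛ _ (hstab _ h.2 _ ?_)
    rw [← hErange]; exact ⟨y, rfl⟩
  have hEinj' : Function.Injective E := LinearMap.ker_eq_bot.1 hEinj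
  have hA1 : A 1 = LinearMap.id := by
    refine LinearMap.ext fun y => hEinj' ?_
    rw [hEA, Subgroup.coe_one, Tw_one hL]; rfl
  have hAm : ∀ a c, A (a * c) = A a ∘ₗ A c := by
    intro a c
    refine LinearMap.ext fun y => hEinj' ?_
    rw [hEA, LinearMap.comp_apply, hEA, hEA, hTmul]
  obtain ⟨C₁, hC₁⟩ : ∃ C₁ : ℝ, ∀ h ∈ eg X, ‖Λ (Tw φ h ρ)‖ ≤ C₁ := by
    have h1 := (hQc.image hΛc).isBounded
    obtain ⟨C₁, hC₁⟩ := h1.exists_norm_le
    exact ⟨C₁, fun h hh => hC₁ _ ⟨_, hTQ h hh, rfl⟩⟩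
  have hC₁0 : 0 ≤ C₁ := (norm_nonneg _).trans (hC₁ 1 (eg X).one_mem)
  have hAbd : ∀ (h : eg X) (v : V), ‖A h v‖ ≤ ((Fintype.card b : ℝ) * C₁) * ‖v‖ := by
    intro h v
    have e1 : A h v = ∑ j, v j • Λ (Tw φ (h : (Mat m)ˣ) (j : Mat m)) := by
      change Λ (Tw φ (h : (Mat m)ˣ) (E v)) = _
      rw [hE, map_sum, map_sum]
      refine Finset.sum_congr rfl fun j _ => ?_
      rw [map_smul, map_smul]
    rw [e1]
    calc ‖∑ j, v j • Λ (Tw φ (h : (Mat m)ˣ) (j : Mat m))‖
        ≤ ∑ j, ‖v j • Λ (Tw φ (h : (Mat m)ˣ) (j : Mat m))‖ := norm_sum_le _ _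
      _ ≤ ∑ _j : b, ‖v‖ * C₁ := by
          refine Finset.sum_le_sum fun j _ => ?_
          rw [norm_smul]
          refine mul_le_mul (PiLp.norm_apply_le v j) ?_ (norm_nonneg _) (norm_nonneg _)
          obtain ⟨g', hg', hj⟩ := hb j.2
          rw [hj, ← Tw_mul hL _ _ h.2 hg']
          exact hC₁ _ ((eg X).mul_mem h.2 hg')
      _ = ((Fintype.card b : ℝ) * C₁) * ‖v‖ := by
          rw [Finset.sum_const, Finset.card_univ, nsmul_eq_mul]; ring
  obtain ⟨B, hBs, hBp, hBi⟩ := Pool.Agent.H576R3.CF.exists_invariant_form (V := V)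
    (Set.range A) (by
      rintro _ ⟨a, rfl⟩ _ ⟨c, rfl⟩
      exact ⟨a * c, hAm a c⟩)
    (by
      rintro _ ⟨a, rfl⟩
      exact abs_det_one A hA1 hAm _ hAbd a)
    ((Fintype.card b : ℝ) * C₁) (by
      rintro _ ⟨a, rfl⟩ v
      exact hAbd a v)
  obtain ⟨v, hv⟩ := exists_orthonormal B hBs hBp
  -- expansion in the orthonormal basis
  have hexp : ∀ x : V, x = ∑ c, B x (v c) • v c := by
    intro x
    have h1 : ∀ c, v.repr x c = B x (v c) := by
      intro c
      conv_rhs => rw [← v.sum_repr x]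
      rw [map_sum, LinearMap.sum_apply, Finset.sum_eq_single c]
      · rw [map_smul, LinearMap.smul_apply, hv, if_pos rfl, smul_eq_mul, mul_one]
      · intro d _ hd
        rw [map_smul, LinearMap.smul_apply, hv, if_neg hd, smul_zero]
      · intro h; exact absurd (Finset.mem_univ _) h
    conv_lhs => rw [← v.sum_repr x]
    exact Finset.sum_congr rfl fun c _ => by rw [h1]
  have hpars : ∀ x y : V, B x y = ∑ c, B x (v c) * B y (v c) := by
    intro x y
    conv_lhs => rw [hexp y]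
    rw [map_sum]
    refine Finset.sum_congr rfl fun c _ => ?_
    rw [map_smul, smul_eq_mul, mul_comm]
  -- the functionals `L c`
  let L : Fin (Module.finrank ℝ V) → Mat m →ₗ[ℝ] ℝ := fun c => (B.flip (v c)) ∘ₗ Λ
  have hLdef : ∀ c w, L c w = B (Λ w) (v c) := fun c w => rfl
  have hLw : ∀ c a, L c (E (v a)) = if a = c then 1 else 0 := by
    intro c a
    rw [hLdef, hΛE, hv]
  have hWexp : ∀ w ∈ W, w = ∑ c, L c w • E (v c) := by
    intro w hw
    conv_lhs => rw [← hEΛ w hw, hexp (Λ w)]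
    rw [map_sum]
    exact Finset.sum_congr rfl fun c _ => by rw [map_smul]; rfl
  have hwW : ∀ a, E (v a) ∈ W := fun a => by rw [← hErange]; exact ⟨_, rfl⟩
  -- the derivative
  have hcurve : ∀ (i : Fin n) (s : ℝ) (w : Mat m), ∃ h ∈ eg X,
      NormedSpace.exp (s • X i) * w * NormedSpace.exp (s • (-(N i))) = Tw φ h w := by
    intro i s w
    obtain ⟨h, hh, he⟩ := exp_mem_eg' X (Pi.single i 1) s
    rw [lc_single] at he
    refine ⟨h, hh, ?_⟩
    have hXi : X i ∈ AX X := Algebra.subset_adjoin (Set.mem_range_self i)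
    have e1 : ((h⁻¹ : (Mat m)ˣ) : Mat m) = NormedSpace.exp (-(s • X i)) := by
      rw [Matrix.exp_neg, ← he, Matrix.coe_units_inv]
    rw [Tw_apply, he, e1, phi_exp hL _ (neg_mem (Subalgebra.smul_mem _ hXi s)), map_neg, map_smul,
      hL.gen, smul_neg]
  have hderiv : ∀ (i : Fin n) (w : Mat m) (M : Mat m →ₗ[ℝ] ℝ),
      HasDerivAt (fun s : ℝ => M (NormedSpace.exp (s • X i) * w * NormedSpace.exp (s • (-(N i)))))
        (M (X i * w - w * N i)) 0 := by
    intro i w M
    have h1 := hasDerivAt_conj (X i) (-(N i)) w M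
    rwa [mul_neg, ← sub_eq_add_neg] at h1
  have h0 : ∀ (i : Fin n) (w : Mat m), NormedSpace.exp ((0 : ℝ) • X i) * w *
      NormedSpace.exp ((0 : ℝ) • (-(N i))) = w := by
    intro i w
    rw [zero_smul, zero_smul, NormedSpace.exp_zero, one_mul, mul_one]
  -- `D w ∈ W`
  have hDW : ∀ (i : Fin n), ∀ w ∈ W, X i * w - w * N i = ∑ c, L c (X i * w - w * N i) • E (v c) := by
    intro i w hw
    ext p q
    let M : Mat m →ₗ[ℝ] ℝ :=
      { toFun := fun Z => Z p q
        map_add' := fun _ _ => rfl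
        map_smul' := fun _ _ => rfl }
    let M' : Mat m →ₗ[ℝ] ℝ := ∑ c, M (E (v c)) • L c
    have hM' : ∀ Z, M' Z = M (∑ c, L c Z • E (v c)) := by
      intro Z
      rw [map_sum, LinearMap.sum_apply]
      refine Finset.sum_congr rfl fun c _ => ?_
      rw [map_smul, LinearMap.smul_apply, smul_eq_mul, smul_eq_mul, mul_comm]
    have e1 := hderiv i w M
    have e2 := hderiv i w M'
    have e3 : (fun s : ℝ => M (NormedSpace.exp (s • X i) * w * NormedSpace.exp (s • (-(N i))))) =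
        fun s : ℝ => M' (NormedSpace.exp (s • X i) * w * NormedSpace.exp (s • (-(N i)))) := by
      funext s
      obtain ⟨h, hh, he⟩ := hcurve i s w
      rw [hM', he]
      congr 1
      exact hWexp _ (hstab h hh w hw)
    rw [e3] at e1
    have e4 := e1.unique e2
    rw [hM'] at e4
    exact e4
  refine ⟨Module.finrank ℝ V, fun a => E (v a), fun i => Matrix.of fun b' a =>
    L b' (X i * E (v a) - E (v a) * N i), ?_, ?_, ?_⟩
  · intro i
    ext a c
    simp only [Matrix.transpose_apply, Matrix.neg_apply, Matrix.of_apply]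
    rw [eq_neg_iff_add_eq_zero]
    -- `f s = ∑ d, L d (T_s w_a) * L d (T_s w_c)` is constant
    have e1 : HasDerivAt (fun s : ℝ => ∑ d,
        L d (NormedSpace.exp (s • X i) * E (v a) * NormedSpace.exp (s • (-(N i)))) *
        L d (NormedSpace.exp (s • X i) * E (v c) * NormedSpace.exp (s • (-(N i)))))
        (∑ d, (L d (X i * E (v a) - E (v a) * N i) * L d (E (v c)) +
          L d (E (v a)) * L d (X i * E (v c) - E (v c) * N i))) 0 := by
      refine HasDerivAt.fun_sum fun d _ => ?_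
      have := (hderiv i (E (v a)) (L d)).mul (hderiv i (E (v c)) (L d))
      rw [h0, h0] at this
      exact this
    have e2 : (fun s : ℝ => ∑ d,
        L d (NormedSpace.exp (s • X i) * E (v a) * NormedSpace.exp (s • (-(N i)))) *
        L d (NormedSpace.exp (s • X i) * E (v c) * NormedSpace.exp (s • (-(N i))))) =
        fun _ => B (v a) (v c) := by
      funext s
      obtain ⟨h, hh, he⟩ := hcurve i s (E (v a))
      obtain ⟨h', hh', he'⟩ := exp_mem_eg' X (Pi.single i 1) s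
      rw [lc_single] at he'
      have key : ∀ w : Mat m, NormedSpace.exp (s • X i) * w * NormedSpace.exp (s • (-(N i))) =
          Tw φ h' w := by
        intro w
        have hXi : X i ∈ AX X := Algebra.subset_adjoin (Set.mem_range_self i)
        have e1 : ((h'⁻¹ : (Mat m)ˣ) : Mat m) = NormedSpace.exp (-(s • X i)) := by
          rw [Matrix.exp_neg, ← he', Matrix.coe_units_inv]
        rw [Tw_apply, he', e1, phi_exp hL _ (neg_mem (Subalgebra.smul_mem _ hXi s)), map_neg,
          map_smul, hL.gen, smul_neg]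
      simp only [key]
      have hi := hBi (A ⟨h', hh'⟩) ⟨_, rfl⟩ (v a) (v c)
      rw [hpars] at hi
      rw [← hi]
      rfl
    rw [e2] at e1
    have e3 := e1.unique (hasDerivAt_const (0 : ℝ) (B (v a) (v c)))
    rw [Finset.sum_add_distrib] at e3
    have e4 : ∑ d, L d (X i * E (v a) - E (v a) * N i) * L d (E (v c)) =
        L c (X i * E (v a) - E (v a) * N i) := by
      rw [Finset.sum_eq_single c]
      · rw [hLw, if_pos rfl, mul_one]
      · intro d _ hd
        rw [hLw, if_neg (Ne.symm hd), mul_zero]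
      · intro h; exact absurd (Finset.mem_univ _) h
    have e5 : ∑ d, L d (E (v a)) * L d (X i * E (v c) - E (v c) * N i) =
        L a (X i * E (v c) - E (v c) * N i) := by
      rw [Finset.sum_eq_single a]
      · rw [hLw, if_pos rfl, one_mul]
      · intro d _ hd
        rw [hLw, if_neg (Ne.symm hd), zero_mul]
      · intro h; exact absurd (Finset.mem_univ _) h
    rw [e4, e5] at e3
    exact e3
  · intro i a
    exact hDW i _ (hwW a)
  · have h1 : ρ ∈ W := Submodule.subset_span ⟨1, (eg X).one_mem, (Tw_one hL ρ).symm⟩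
    rw [hWexp ρ h1]
    exact Submodule.sum_mem _ fun c _ => Submodule.smul_mem _ _
      (Submodule.subset_span (Set.mem_range_self c))

end Pool.Agent.Run7.h253.LJ
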