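import Pool.Agent.Run7.h314.LJ.Iface

/-! Project LJ, piece SKEW. -/

set_option autoImplicit false

namespace Pool.Agent.Run7.h253.LJ

open Topology Filter Pool.Agent.Run7.h314.LJ Pool.Agent.N696.LI

section

variable {ι : Type} [Fintype ι] [DecidableEq ι]

theorem hasDerivAt_exp (M : Matrix ι ι ℝ) (L : Matrix ι ι ℝ →ₗ[ℝ] ℝ) (t : ℝ) :
    HasDerivAt (fun s : ℝ => L (NormedSpace.exp (s • M))) (L (M * NormedSpace.exp (t • M))) t := by
  letI : NormedRing (Matrix ι ι ℝ) := Matrix.linftyOpNormedRing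
  letI : NormedAlgebra ℝ (Matrix ι ι ℝ) := Matrix.linftyOpNormedAlgebra
  have h1 := hasDerivAt_exp_smul_const' (𝕂 := ℝ) M t
  exact (L.toContinuousLinearMap.hasFDerivAt (x := NormedSpace.exp (t • M))).comp_hasDerivAt t h1

theorem exp_ne (M : Matrix ι ι ℝ) : ∃ u : (Matrix ι ι ℝ)ˣ, (u : Matrix ι ι ℝ) = NormedSpace.exp M :=
  Matrix.isUnit_exp M

theorem exp_mem_eg {n : ℕ} (N : Fin n → Matrix ι ι ℝ) (c : Fin n → ℝ) :
    ∃ h ∈ eg N, (h : Matrix ι ι ℝ) = NormedSpace.exp (lc N c) := by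
  obtain ⟨u, hu⟩ := exp_ne (lc N c)
  exact ⟨u, Subgroup.subset_closure ⟨c, hu⟩, hu⟩

theorem exp_mem_eg' {n : ℕ} (N : Fin n → Matrix ι ι ℝ) (c : Fin n → ℝ) (s : ℝ) :
    ∃ h ∈ eg N, (h : Matrix ι ι ℝ) = NormedSpace.exp (s • lc N c) := by
  obtain ⟨u, hu, h2⟩ := exp_mem_eg N (s • c)
  refine ⟨u, hu, ?_⟩
  rw [h2]
  congr 1
  unfold lc
  rw [Finset.smul_sum]
  refine Finset.sum_congr rfl fun i _ => ?_
  rw [Pi.smul_apply, smul_assoc]

theorem lc_single {n : ℕ} (N : Fin n → Matrix ι ι ℝ) (i : Fin n) : lc N (Pi.single i 1) = N i := by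
  unfold lc
  rw [Finset.sum_eq_single i]
  · simp
  · intro j _ hj
    rw [Pi.single_eq_of_ne hj, zero_smul]
  · simp

end

/-- second derivative at a maximum -/
theorem second_deriv {f g : ℝ → ℝ} {c : ℝ} (hf : ∀ s, HasDerivAt f (g s) s)
    (hg : HasDerivAt g c 0) (hmax : ∀ s, f s ≤ f 0) : c ≤ 0 := by
  by_contra hc
  push Not at hc
  have hg0 : g 0 = 0 := by
    have h1 : IsLocalMax f 0 := Filter.Eventually.of_forall hmax
    exact h1.hasDerivAt_eq_zero (hf 0)
  -- `g s > 0` for small positive `s`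
  have h2 : ∀ᶠ s in 𝓝[>] (0 : ℝ), 0 < g s := by
    have h3 := hasDerivAt_iff_tendsto_slope.1 hg
    have h4 : Tendsto (slope g 0) (𝓝[>] 0) (𝓝 c) :=
      h3.mono_left (nhdsWithin_mono _ fun x hx => ne_of_gt hx)
    have h5 := h4.eventually (eventually_gt_nhds hc)
    filter_upwards [h5, self_mem_nhdsWithin] with s hs hs0
    have hs0' : (0 : ℝ) < s := hs0
    rw [slope_def_field, hg0, sub_zero, sub_zero] at hs
    exact (div_pos_iff_of_pos_right hs0').1 hs
  obtain ⟨δ, hδ0, hδ⟩ := mem_nhdsGT_iff_exists_Ioo_subset.1 h2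
  have hδ0' : (0 : ℝ) < δ := hδ0
  have hmono : StrictMonoOn f (Set.Icc 0 (δ / 2)) := by
    refine strictMonoOn_of_deriv_pos (convex_Icc _ _)
      (fun x _ => (hf x).continuousAt.continuousWithinAt) fun x hx => ?_
    rw [interior_Icc] at hx
    rw [(hf x).deriv]
    exact hδ ⟨hx.1, by linarith [hx.2]⟩
  have h6 := hmono (Set.left_mem_Icc.2 (by linarith)) (Set.right_mem_Icc.2 (by linarith))
    (by linarith : (0 : ℝ) < δ / 2)
  linarith [hmax (δ / 2)]

section

variable {ι κ : Type} [Fintype ι] [DecidableEq ι] [Fintype κ]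

/-- squared Frobenius norm -/
def fr (Y : Matrix ι κ ℝ) : ℝ := ∑ a, ∑ j, Y a j ^ 2

theorem fr_eq_trace (Y : Matrix ι κ ℝ) : fr Y = (Y * Y.transpose).trace := by
  unfold fr Matrix.trace
  refine Finset.sum_congr rfl fun a _ => ?_
  rw [Matrix.diag_apply, Matrix.mul_apply]
  refine Finset.sum_congr rfl fun j _ => ?_
  rw [Matrix.transpose_apply, sq]

theorem fr_nonneg (Y : Matrix ι κ ℝ) : 0 ≤ fr Y :=
  Finset.sum_nonneg fun _ _ => Finset.sum_nonneg fun _ _ => sq_nonneg _

theorem fr_eq_zero {Y : Matrix ι κ ℝ} (h : fr Y = 0) : Y = 0 := by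
  ext a j
  have h1 := (Finset.sum_eq_zero_iff_of_nonneg
    (fun a _ => Finset.sum_nonneg fun j _ => sq_nonneg (Y a j))).1 h a (Finset.mem_univ a)
  have h2 := (Finset.sum_eq_zero_iff_of_nonneg (fun j _ => sq_nonneg (Y a j))).1 h1 j
    (Finset.mem_univ j)
  simpa using h2

theorem deriv_fr (K : Matrix ι ι ℝ) (Y : Matrix ι κ ℝ) (t : ℝ) :
    HasDerivAt (fun s : ℝ => fr (NormedSpace.exp (s • K) * Y))
      (∑ a, ∑ j, 2 * ((NormedSpace.exp (t • K) * Y) a j * (K * NormedSpace.exp (t • K) * Y) a j))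
      t := by
  unfold fr
  refine HasDerivAt.fun_sum fun a _ => HasDerivAt.fun_sum fun j _ => ?_
  let L : Matrix ι ι ℝ →ₗ[ℝ] ℝ :=
    { toFun := fun M => (M * Y) a j
      map_add' := fun M M' => by rw [Matrix.add_mul]; rfl
      map_smul' := fun c M => by rw [Matrix.smul_mul]; rfl }
  have h1 := (hasDerivAt_exp K L t).pow 2
  have h2 : HasDerivAt (fun s : ℝ => (NormedSpace.exp (s • K) * Y) a j ^ 2)
    (((2 : ℕ) : ℝ) * (NormedSpace.exp (t • K) * Y) a j ^ (2 - 1) *
      (K * NormedSpace.exp (t • K) * Y) a j) t := h1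
  refine h2.congr_deriv ?_
  norm_num
  ring

theorem deriv_fr2 (K : Matrix ι ι ℝ) (Y : Matrix ι κ ℝ) :
    HasDerivAt (fun s : ℝ => ∑ a, ∑ j, 2 * ((NormedSpace.exp (s • K) * Y) a j *
        (K * NormedSpace.exp (s • K) * Y) a j))
      (∑ a, ∑ j, 2 * ((K * Y) a j * (K * Y) a j + Y a j * (K * K * Y) a j)) 0 := by
  refine HasDerivAt.fun_sum fun a _ => HasDerivAt.fun_sum fun j _ => ?_
  let L : Matrix ι ι ℝ →ₗ[ℝ] ℝ :=
    { toFun := fun M => (M * Y) a j
      map_add' := fun M M' => by rw [Matrix.add_mul]; rfl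
      map_smul' := fun c M => by rw [Matrix.smul_mul]; rfl }
  let L' : Matrix ι ι ℝ →ₗ[ℝ] ℝ :=
    { toFun := fun M => (K * M * Y) a j
      map_add' := fun M M' => by rw [mul_add, Matrix.add_mul]; rfl
      map_smul' := fun c M => by rw [Matrix.mul_smul, Matrix.smul_mul]; rfl }
  have h1 := ((hasDerivAt_exp K L 0).mul (hasDerivAt_exp K L' 0)).const_mul (2 : ℝ)
  have h2 : HasDerivAt (fun s : ℝ => 2 * ((NormedSpace.exp (s • K) * Y) a j *
      (K * NormedSpace.exp (s • K) * Y) a j))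
    (2 * ((K * NormedSpace.exp ((0 : ℝ) • K) * Y) a j * (K * NormedSpace.exp ((0 : ℝ) • K) * Y) a j +
      (NormedSpace.exp ((0 : ℝ) • K) * Y) a j *
        (K * (K * NormedSpace.exp ((0 : ℝ) • K)) * Y) a j)) 0 := h1
  rw [zero_smul, NormedSpace.exp_zero, mul_one, Matrix.one_mul] at h2
  exact h2

/-- harmonicity, contracted with `Y Yᵀ` -/
theorem harm_trace {n : ℕ} (K : Fin n → Matrix ι ι ℝ) (hK : Harm K) (Y : Matrix ι κ ℝ) :
    ∑ i, fr ((K i).transpose * Y) = ∑ i, fr (K i * Y) := by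
  have h1 : ((∑ i, (K i * (K i).transpose - (K i).transpose * K i)) * (Y * Y.transpose)).trace
      = 0 := by
    rw [show (∑ i, (K i * (K i).transpose - (K i).transpose * K i)) = 0 from hK, zero_mul,
      Matrix.trace_zero]
  rw [Finset.sum_mul, Matrix.trace_sum] at h1
  have h2 : ∀ i, ((K i * (K i).transpose - (K i).transpose * K i) * (Y * Y.transpose)).trace =
      fr ((K i).transpose * Y) - fr (K i * Y) := by
    intro i
    rw [fr_eq_trace, fr_eq_trace, sub_mul, Matrix.trace_sub, Matrix.transpose_mul,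
      Matrix.transpose_mul, Matrix.transpose_transpose]
    congr 1
    · rw [Matrix.mul_assoc, Matrix.trace_mul_comm]
      simp only [Matrix.mul_assoc]
    · rw [Matrix.mul_assoc, Matrix.trace_mul_comm]
      simp only [Matrix.mul_assoc]
  rw [Finset.sum_congr rfl fun i _ => h2 i, Finset.sum_sub_distrib] at h1
  linarith

/-- at a maximum of the Frobenius norm on a stable set the operators are skew -/
theorem skew_at_max {n : ℕ} (K : Fin n → Matrix ι ι ℝ) (hK : Harm K) (O : Set (Matrix ι κ ℝ))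
    (hO : ∀ h ∈ eg K, ∀ Y ∈ O, (h : Matrix ι ι ℝ) * Y ∈ O) (Y : Matrix ι κ ℝ) (hY : Y ∈ O)
    (hmax : ∀ Z ∈ O, fr Z ≤ fr Y) (i : Fin n) : (K i + (K i).transpose) * Y = 0 := by
  have hpos : ∀ i, ∑ a, ∑ j, 2 * ((K i * Y) a j * (K i * Y) a j + Y a j * (K i * K i * Y) a j) ≤ 0 := by
    intro i
    refine second_deriv (deriv_fr (K i) Y) (deriv_fr2 (K i) Y) fun s => ?_
    obtain ⟨h, hh, he⟩ := exp_mem_eg' K (Pi.single i 1) s
    rw [lc_single] at he
    rw [zero_smul, NormedSpace.exp_zero, Matrix.one_mul, ← he]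
    exact hmax _ (hO h hh Y hY)
  have hkey : ∀ i, ∑ a, ∑ j, 2 * ((K i * Y) a j * (K i * Y) a j + Y a j * (K i * K i * Y) a j) =
      fr ((K i + (K i).transpose) * Y) + fr (K i * Y) - fr ((K i).transpose * Y) := by
    intro i
    have e1 : ∑ a, ∑ j, 2 * ((K i * Y) a j * (K i * Y) a j + Y a j * (K i * K i * Y) a j) =
        2 * fr (K i * Y) + 2 * (K i * K i * Y * Y.transpose).trace := by
      unfold fr Matrix.trace
      rw [Finset.mul_sum, Finset.mul_sum, ← Finset.sum_add_distrib]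
      refine Finset.sum_congr rfl fun a _ => ?_
      rw [Matrix.diag_apply, Matrix.mul_apply (M := K i * K i * Y), Finset.mul_sum,
        Finset.mul_sum, ← Finset.sum_add_distrib]
      refine Finset.sum_congr rfl fun j _ => ?_
      rw [Matrix.transpose_apply]; ring
    have e2 : fr ((K i + (K i).transpose) * Y) = fr (K i * Y) + fr ((K i).transpose * Y) +
        2 * (K i * K i * Y * Y.transpose).trace := by
      rw [fr_eq_trace, fr_eq_trace, fr_eq_trace, Matrix.add_mul, Matrix.transpose_add,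
        Matrix.mul_add, Matrix.add_mul, Matrix.add_mul, Matrix.trace_add, Matrix.trace_add,
        Matrix.trace_add]
      have e3 : (K i * Y * ((K i).transpose * Y).transpose).trace =
          (K i * K i * Y * Y.transpose).trace := by
        rw [Matrix.transpose_mul, Matrix.transpose_transpose, ← Matrix.mul_assoc,
          Matrix.trace_mul_comm]
        simp only [Matrix.mul_assoc]
      have e4 : ((K i).transpose * Y * (K i * Y).transpose).trace =
          (K i * K i * Y * Y.transpose).trace := by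
        rw [← e3, ← Matrix.trace_transpose, Matrix.transpose_mul, Matrix.transpose_transpose]
      rw [e3, e4]; ring
    rw [e1, e2]; ring
  have hsum : ∑ i, fr ((K i + (K i).transpose) * Y) ≤ 0 := by
    have h1 : ∑ i, (fr ((K i + (K i).transpose) * Y) + fr (K i * Y) - fr ((K i).transpose * Y)) ≤ 0 :=
      Finset.sum_nonpos fun i _ => by rw [← hkey i]; exact hpos i
    rw [Finset.sum_sub_distrib, Finset.sum_add_distrib, harm_trace K hK Y] at h1
    linarith
  have h0 := (Finset.sum_eq_zero_iff_of_nonneg (fun i _ =>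
    fr_nonneg ((K i + (K i).transpose) * Y))).1
    (le_antisymm hsum (Finset.sum_nonneg fun i _ => fr_nonneg _)) i (Finset.mem_univ i)
  exact fr_eq_zero h0

end

section

variable {ι : Type} [Fintype ι] [DecidableEq ι]

/-- if `Mᵀ = -M` on an `exp (s M)`-stable set then `exp Mᵀ exp M = 1` on it -/
theorem exp_skew (M : Matrix ι ι ℝ) (u : ι → ℝ)
    (h : ∀ s : ℝ, (M.transpose + M).mulVec ((NormedSpace.exp (s • M)).mulVec u) = 0) :
    (NormedSpace.exp M.transpose).mulVec ((NormedSpace.exp M).mulVec u) = u := by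
  letI : NormedRing (Matrix ι ι ℝ) := Matrix.linftyOpNormedRing
  letI : NormedAlgebra ℝ (Matrix ι ι ℝ) := Matrix.linftyOpNormedAlgebra
  funext a
  let L : Matrix ι ι ℝ →ₗ[ℝ] ℝ :=
    { toFun := fun Z => (Z.mulVec u) a
      map_add' := fun Z Z' => by rw [Matrix.add_mulVec]; rfl
      map_smul' := fun c Z => by rw [Matrix.smul_mulVec]; rfl }
  have hd : ∀ t : ℝ, HasDerivAt (fun s : ℝ => L (NormedSpace.exp (s • M.transpose) *
      NormedSpace.exp (s • M))) 0 t := by
    intro t
    have h1 := hasDerivAt_exp_smul_const (𝕂 := ℝ) M.transpose t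
    have h2 := hasDerivAt_exp_smul_const' (𝕂 := ℝ) M t
    have h3 := (L.toContinuousLinearMap.hasFDerivAt
      (x := NormedSpace.exp (t • M.transpose) * NormedSpace.exp (t • M))).comp_hasDerivAt t
      (h1.mul h2)
    have h4 : L (NormedSpace.exp (t • M.transpose) * M.transpose * NormedSpace.exp (t • M) +
        NormedSpace.exp (t • M.transpose) * (M * NormedSpace.exp (t • M))) = 0 := by
      change ((NormedSpace.exp (t • M.transpose) * M.transpose * NormedSpace.exp (t • M) +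
        NormedSpace.exp (t • M.transpose) * (M * NormedSpace.exp (t • M))).mulVec u) a = 0
      have h5 : NormedSpace.exp (t • M.transpose) * M.transpose * NormedSpace.exp (t • M) +
        NormedSpace.exp (t • M.transpose) * (M * NormedSpace.exp (t • M)) =
        NormedSpace.exp (t • M.transpose) * ((M.transpose + M) * NormedSpace.exp (t • M)) := by
        rw [add_mul, mul_add, mul_assoc]
      rw [h5, ← Matrix.mulVec_mulVec, ← Matrix.mulVec_mulVec, h t, Matrix.mulVec_zero]
      rfl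
    have h6 : HasDerivAt (fun s : ℝ => L (NormedSpace.exp (s • M.transpose) *
      NormedSpace.exp (s • M))) (L (NormedSpace.exp (t • M.transpose) * M.transpose *
        NormedSpace.exp (t • M) +
        NormedSpace.exp (t • M.transpose) * (M * NormedSpace.exp (t • M)))) t := h3
    rw [h4] at h6
    exact h6
  have hconst := is_const_of_deriv_eq_zero (fun t => (hd t).differentiableAt)
    (fun t => (hd t).deriv) 1 0
  have e1 : L (NormedSpace.exp ((1 : ℝ) • M.transpose) * NormedSpace.exp ((1 : ℝ) • M)) =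
      ((NormedSpace.exp M.transpose).mulVec ((NormedSpace.exp M).mulVec u)) a := by
    rw [one_smul, one_smul]
    change ((NormedSpace.exp M.transpose * NormedSpace.exp M).mulVec u) a = _
    rw [Matrix.mulVec_mulVec]
  have e0 : L (NormedSpace.exp ((0 : ℝ) • M.transpose) * NormedSpace.exp ((0 : ℝ) • M)) = u a := by
    rw [zero_smul, zero_smul, NormedSpace.exp_zero, one_mul]
    change ((1 : Matrix ι ι ℝ).mulVec u) a = _
    rw [Matrix.one_mulVec]
  rw [← e1, ← e0]
  exact hconst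

end

/-- PIECE SKEW. -/
theorem skew : S_skew := by
  intro ι _ _ n K hK w R hR
  classical
  set Orb : Set (ι → ℝ) := {v | ∃ h ∈ eg K, v = (h : Matrix ι ι ℝ).mulVec w} with hOrb
  set W : Submodule ℝ (ι → ℝ) := Submodule.span ℝ Orb with hW
  have hstab : ∀ h ∈ eg K, ∀ u ∈ W, (h : Matrix ι ι ℝ).mulVec u ∈ W := by
    intro h hh u hu
    refine Submodule.span_induction (p := fun u _ => (h : Matrix ι ι ℝ).mulVec u ∈ W)
      ?_ ?_ ?_ ?_ hu
    · rintro _ ⟨g, hg, rfl⟩
      refine Submodule.subset_span ⟨h * g, (eg K).mul_mem hh hg, ?_⟩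
      rw [Matrix.mulVec_mulVec]; rfl
    · rw [Matrix.mulVec_zero]; exact W.zero_mem
    · intro x y _ _ hx hy
      rw [Matrix.mulVec_add]; exact W.add_mem hx hy
    · intro c x _ hx
      rw [Matrix.mulVec_smul]; exact W.smul_mem c hx
  obtain ⟨b, hb, hspan, hli⟩ := exists_linearIndependent ℝ Orb
  haveI : Fintype b := hli.setFinite.fintype
  set Y₀ : Matrix ι b ℝ := Matrix.of fun a j => (j : ι → ℝ) a with hY₀
  have hY₀c : ∀ c : b → ℝ, Y₀.mulVec c = ∑ j, c j • (j : ι → ℝ) := by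
    intro c
    funext a
    rw [Matrix.mulVec, dotProduct, Finset.sum_apply]
    refine Finset.sum_congr rfl fun j _ => ?_
    rw [hY₀, Matrix.of_apply, Pi.smul_apply, smul_eq_mul, mul_comm]
  have hY₀inj : LinearMap.ker Y₀.mulVecLin = ⊥ := by
    rw [LinearMap.ker_eq_bot']
    intro c hc
    have h1 : ∑ j, c j • (j : ι → ℝ) = 0 := by rw [← hY₀c]; exact hc
    funext j
    exact (Fintype.linearIndependent_iff.1 hli) c h1 j
  have hY₀range : LinearMap.range Y₀.mulVecLin = W := by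
    apply le_antisymm
    · rintro _ ⟨c, rfl⟩
      rw [Matrix.mulVecLin_apply, hY₀c]
      exact Submodule.sum_mem _ fun j _ => W.smul_mem _ (Submodule.subset_span (hb j.2))
    · rw [hW, ← hspan, Submodule.span_le]
      intro v hv
      refine ⟨Pi.single ⟨v, hv⟩ 1, ?_⟩
      rw [Matrix.mulVecLin_apply, hY₀c, Finset.sum_eq_single (⟨v, hv⟩ : b)]
      · simp
      · intro j _ hj
        rw [Pi.single_eq_of_ne hj, zero_smul]
      · intro h; exact absurd (Finset.mem_univ _) h
  -- the orbit of `Y₀`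
  set O₀ : Set (Matrix ι b ℝ) := {Z | ∃ h ∈ eg K, Z = (h : Matrix ι ι ℝ) * Y₀} with hO₀
  have hO₀R : ∀ Z ∈ O₀, ∀ a j, |Z a j| ≤ R := by
    rintro _ ⟨h, hh, rfl⟩ a j
    obtain ⟨g, hg, hj⟩ := hb j.2
    have h1 : ((h : Matrix ι ι ℝ) * Y₀) a j = (((h * g : (Matrix ι ι ℝ)ˣ) : Matrix ι ι ℝ).mulVec w) a := by
      rw [Units.val_mul, ← Matrix.mulVec_mulVec, ← hj]
      rfl
    rw [h1]
    exact hR _ ((eg K).mul_mem hh hg) a
  set B : Set (Matrix ι b ℝ) := Set.pi Set.univ fun _ => Set.pi Set.univ fun _ =>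
    Set.Icc (-R) R with hB
  have hBc : IsCompact B := isCompact_univ_pi fun _ => isCompact_univ_pi fun _ => isCompact_Icc
  have hO₀B : O₀ ⊆ B := by
    intro Z hZ a _ j _
    exact abs_le.1 (hO₀R Z hZ a j)
  have hclB : closure O₀ ⊆ B := closure_minimal hO₀B hBc.isClosed
  have hOc : IsCompact (closure O₀) := hBc.of_isClosed_subset isClosed_closure hclB
  have hY₀O : Y₀ ∈ O₀ := ⟨1, (eg K).one_mem, by rw [Units.val_one, Matrix.one_mul]⟩
  have hfrc : Continuous (fr : Matrix ι b ℝ → ℝ) := by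
    unfold fr
    refine continuous_finsetSum _ fun a _ => continuous_finsetSum _ fun j _ => ?_
    exact ((continuous_apply_apply a j)).pow 2
  obtain ⟨Y, hYO, hYmax⟩ := hOc.exists_isMaxOn ⟨Y₀, subset_closure hY₀O⟩ hfrc.continuousOn
  have hOst : ∀ h ∈ eg K, ∀ Z ∈ closure O₀, (h : Matrix ι ι ℝ) * Z ∈ closure O₀ := by
    intro h hh Z hZ
    refine map_mem_closure (f := fun Z : Matrix ι b ℝ => (h : Matrix ι ι ℝ) * Z)
      (Continuous.matrix_mul continuous_const continuous_id) hZ ?_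
    rintro _ ⟨g, hg, rfl⟩
    exact ⟨h * g, (eg K).mul_mem hh hg, by rw [Units.val_mul, Matrix.mul_assoc]⟩
  have hskY : ∀ i, (K i + (K i).transpose) * Y = 0 :=
    fun i => skew_at_max K hK (closure O₀) hOst Y hYO (fun Z hZ => hYmax hZ) i
  -- the column space of `Y`
  have hWclosed : IsClosed (W : Set (ι → ℝ)) := W.closed_of_finiteDimensional
  have hYle : LinearMap.range Y.mulVecLin ≤ W := by
    rintro _ ⟨c, rfl⟩
    rw [Matrix.mulVecLin_apply, ← SetLike.mem_coe, ← hWclosed.closure_eq]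
    refine map_mem_closure (f := fun Z : Matrix ι b ℝ => Z.mulVec c)
      (Continuous.matrix_mulVec continuous_id continuous_const) hYO ?_
    rintro _ ⟨h, hh, rfl⟩
    change ((h : Matrix ι ι ℝ) * Y₀).mulVec c ∈ W
    rw [← Matrix.mulVec_mulVec]
    refine hstab h hh _ ?_
    rw [← hY₀range]
    exact ⟨c, rfl⟩
  have hYinj : LinearMap.ker Y.mulVecLin = ⊥ := by
    rw [LinearMap.ker_eq_bot']
    intro c hc
    have hc' : Y.mulVec c = 0 := hc
    haveI : FrechetUrysohnSpace (Matrix ι b ℝ) :=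
      inferInstanceAs (FrechetUrysohnSpace (ι → b → ℝ))
    obtain ⟨Z, hZ, hZY⟩ := mem_closure_iff_seq_limit.1 hYO
    choose h hh hhZ using hZ
    obtain ⟨L, hL⟩ := LinearMap.exists_leftInverse_of_injective Y₀.mulVecLin hY₀inj
    have hLc : Continuous L := L.continuous_of_finiteDimensional
    -- `h t (Y₀ c) → 0`
    have h1 : Tendsto (fun t => (Z t).mulVec c) atTop (𝓝 0) := by
      rw [← hc']
      exact ((Continuous.matrix_mulVec continuous_id continuous_const).tendsto Y).comp hZY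
    have h2 : Tendsto (fun t => L ((Z t).mulVec c)) atTop (𝓝 0) := by
      rw [← map_zero L]
      exact (hLc.tendsto 0).comp h1
    have h3 : ∀ t, Y₀.mulVec (L ((Z t).mulVec c)) = (Z t).mulVec c := by
      intro t
      have h4 : (Z t).mulVec c ∈ LinearMap.range Y₀.mulVecLin := by
        rw [hY₀range, hhZ t, ← Matrix.mulVec_mulVec]
        refine hstab _ (hh t) _ ?_
        rw [← hY₀range]; exact ⟨c, rfl⟩
      obtain ⟨d, hd⟩ := h4
      have h5 : L (Y₀.mulVecLin d) = d := LinearMap.congr_fun hL d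
      rw [← hd, h5]; rfl
    have h6 : ∀ a t, |(Y₀.mulVec c) a| ≤ ∑ j, R * |L ((Z t).mulVec c) j| := by
      intro a t
      have h7 : Y₀.mulVec c = ((((h t)⁻¹ : (Matrix ι ι ℝ)ˣ) : Matrix ι ι ℝ) * Y₀).mulVec
          (L ((Z t).mulVec c)) := by
        rw [← Matrix.mulVec_mulVec, h3, hhZ t, ← Matrix.mulVec_mulVec, Matrix.mulVec_mulVec,
          ← Units.val_mul, inv_mul_cancel, Units.val_one, Matrix.one_mulVec]
      rw [h7]
      rw [Matrix.mulVec, dotProduct]
      refine (Finset.abs_sum_le_sum_abs _ _).trans (Finset.sum_le_sum fun j _ => ?_)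
      rw [abs_mul]
      exact mul_le_mul_of_nonneg_right
        (hO₀R _ ⟨(h t)⁻¹, (eg K).inv_mem (hh t), rfl⟩ a j) (abs_nonneg _)
    have h8 : Tendsto (fun t => ∑ j, R * |L ((Z t).mulVec c) j|) atTop (𝓝 0) := by
      have : Tendsto (fun t => ∑ j, R * |L ((Z t).mulVec c) j|) atTop (𝓝 (∑ j : b, R * |(0 : b → ℝ) j|)) := by
        refine tendsto_finsetSum _ fun j _ => ?_
        exact (((tendsto_pi_nhds.1 h2) j).abs).const_mul R
      simpa using this
    have h9 : Y₀.mulVec c = 0 := by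
      funext a
      have h10 : |(Y₀.mulVec c) a| ≤ 0 := ge_of_tendsto' h8 (h6 a)
      exact abs_eq_zero.1 (le_antisymm h10 (abs_nonneg _))
    have h11 := (LinearMap.ker_eq_bot'.1 hY₀inj) c h9
    exact h11
  have hYrange : LinearMap.range Y.mulVecLin = W := by
    refine Submodule.eq_of_le_of_finrank_le hYle ?_
    rw [← hY₀range, LinearMap.finrank_range_of_inj (LinearMap.ker_eq_bot.1 hYinj),
      LinearMap.finrank_range_of_inj (LinearMap.ker_eq_bot.1 hY₀inj)]
  have hsk : ∀ i, ∀ u ∈ W, ((K i).transpose + K i).mulVec u = 0 := by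
    intro i u hu
    rw [← hYrange] at hu
    obtain ⟨c, rfl⟩ := hu
    rw [Matrix.mulVecLin_apply, Matrix.mulVec_mulVec, add_comm, hskY i, Matrix.zero_mulVec]
  have hsklc : ∀ c, ∀ u ∈ W, ((lc K c).transpose + lc K c).mulVec u = 0 := by
    intro c u hu
    have h1 : (lc K c).transpose + lc K c = ∑ i, c i • ((K i).transpose + K i) := by
      unfold lc
      rw [Matrix.transpose_sum, ← Finset.sum_add_distrib]
      refine Finset.sum_congr rfl fun i _ => ?_
      rw [Matrix.transpose_smul, smul_add]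
    rw [h1, Matrix.sum_mulVec]
    refine Finset.sum_eq_zero fun i _ => ?_
    rw [Matrix.smul_mulVec, hsk i u hu, smul_zero]
  -- the group
  have hP : ∀ h ∈ eg K, ∀ u ∈ W,
      (h : Matrix ι ι ℝ).transpose.mulVec ((h : Matrix ι ι ℝ).mulVec u) = u := by
    intro h hh
    refine Subgroup.closure_induction (p := fun (h : (Matrix ι ι ℝ)ˣ) _ => ∀ u ∈ W,
      (h : Matrix ι ι ℝ).transpose.mulVec ((h : Matrix ι ι ℝ).mulVec u) = u) ?_ ?_ ?_ ?_ hh
    · rintro g ⟨c, hc⟩ u hu
      rw [hc, ← Matrix.exp_transpose]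
      refine exp_skew _ _ fun s => ?_
      obtain ⟨g', hg', hg'e⟩ := exp_mem_eg' K c s
      rw [← hg'e]
      exact hsklc c _ (hstab g' hg' u hu)
    · intro u _
      rw [Units.val_one, Matrix.transpose_one, Matrix.one_mulVec, Matrix.one_mulVec]
    · intro g h hg hh ihg ihh u hu
      rw [Units.val_mul, Matrix.transpose_mul, ← Matrix.mulVec_mulVec, ← Matrix.mulVec_mulVec,
        ihg _ (hstab h hh u hu), ihh u hu]
    · intro g hg ih u hu
      have hu' := hstab _ ((eg K).inv_mem hg) u hu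
      have h1 := ih _ hu'
      rw [Matrix.mulVec_mulVec (M := (g : Matrix ι ι ℝ)), ← Units.val_mul, mul_inv_cancel, Units.val_one,
        Matrix.one_mulVec] at h1
      rw [← h1, Matrix.mulVec_mulVec, ← Matrix.transpose_mul, ← Units.val_mul, mul_inv_cancel,
        Units.val_one, Matrix.transpose_one, Matrix.one_mulVec]
  intro h hh
  have hwW : w ∈ W := Submodule.subset_span ⟨1, (eg K).one_mem, by
    rw [Units.val_one, Matrix.one_mulVec]⟩
  have h1 := hP h hh _ (hstab _ ((eg K).inv_mem hh) w hwW)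
  rw [Matrix.mulVec_mulVec (M := (h : Matrix ι ι ℝ)), ← Units.val_mul, mul_inv_cancel, Units.val_one,
    Matrix.one_mulVec] at h1
  exact h1

end Pool.Agent.Run7.h253.LJ
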